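import Mathlib

set_option autoImplicit false

/-! Exponential sums at points of short windows, in mean square. -/

namespace Pool.Agent.Run7.h290.FT

open Finset Filter MeasureTheory Topology Complex

/-- `exp (2 π i x)` -/
noncomputable def e (x : ℝ) : ℂ := Complex.exp (2 * Real.pi * I * x)

lemma e_norm (x : ℝ) : ‖e x‖ = 1 := by
  unfold e
  rw [Complex.norm_exp]
  simp

/-- the sum over a finite set -/
noncomputable def P (a : ℕ → ℂ) (A : Finset ℕ) (x : ℝ) : ℂ := ∑ n ∈ A, a n * e (n * x)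

/-- the coefficients of the derivative -/
noncomputable def da (a : ℕ → ℂ) (n : ℕ) : ℂ := 2 * Real.pi * I * n * a n

lemma P_deriv (a : ℕ → ℂ) (A : Finset ℕ) (x : ℝ) : HasDerivAt (P a A) (P (da a) A x) x := by
  unfold P
  refine HasDerivAt.fun_sum fun n _ => ?_
  have h1 : HasDerivAt (fun x : ℝ => (2 * Real.pi * I * ((n * x : ℝ) : ℂ) : ℂ)) (2 * Real.pi * I * n) x := by
    have h2 : HasDerivAt (fun x : ℝ => ((x : ℝ) : ℂ)) 1 x := Complex.ofRealCLM.hasDerivAt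
    have h3 := h2.const_mul (2 * Real.pi * I * n : ℂ)
    rw [mul_one] at h3
    refine h3.congr_of_eventuallyEq (Eventually.of_forall fun t => ?_)
    simp only
    push_cast
    ring
  have h4 : HasDerivAt (fun x : ℝ => a n * e (n * x)) (a n * (e (n * x) * (2 * Real.pi * I * n))) x :=
    (h1.cexp).const_mul (a n)
  refine h4.congr_deriv ?_
  unfold da
  ring

lemma P_cont (a : ℕ → ℂ) (A : Finset ℕ) : Continuous (P a A) := by
  rw [continuous_iff_continuousAt]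
  exact fun x => (P_deriv a A x).continuousAt

lemma int_e (h : ℤ) (u : ℝ) (L : ℕ) : ∫ x in u..(u + L), e (h * x) = if h = 0 then (L : ℂ) else 0 := by
  by_cases h0 : h = 0
  · subst h0
    simp [e]
  · rw [if_neg h0]
    have hc : (2 * Real.pi * I * h : ℂ) ≠ 0 := by
      refine mul_ne_zero (mul_ne_zero (mul_ne_zero two_ne_zero ?_) I_ne_zero) (by exact_mod_cast h0)
      exact_mod_cast Real.pi_ne_zero
    have h1 : (fun x : ℝ => e (h * x)) = fun x : ℝ => Complex.exp ((2 * Real.pi * I * h : ℂ) * x) := by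
      funext x
      unfold e
      congr 1
      push_cast
      ring
    rw [h1, integral_exp_mul_complex hc]
    have h2 : Complex.exp ((2 * Real.pi * I * h : ℂ) * ((u + L : ℝ) : ℂ)) = Complex.exp ((2 * Real.pi * I * h : ℂ) * (u : ℂ)) := by
      have h3 : (2 * Real.pi * I * h : ℂ) * ((u + L : ℝ) : ℂ) = (2 * Real.pi * I * h : ℂ) * (u : ℂ) + ((h * L : ℤ) : ℂ) * (2 * Real.pi * I) := by
        push_cast
        ring
      rw [h3, Complex.exp_add, Complex.exp_int_mul_two_pi_mul_I, mul_one]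
    rw [h2, sub_self, zero_div]

lemma e_cont (h : ℤ) : Continuous fun x : ℝ => e (h * x) := by
  unfold e
  fun_prop

lemma sq_expand (a : ℕ → ℂ) (A : Finset ℕ) (x : ℝ) :
    ((‖P a A x‖ ^ 2 : ℝ) : ℂ) = ∑ n ∈ A, ∑ l ∈ A, (a n * (starRingEnd ℂ) (a l)) * e (((n : ℤ) - (l : ℤ) : ℤ) * x) := by
  have h3 : ((‖P a A x‖ ^ 2 : ℝ) : ℂ) = P a A x * (starRingEnd ℂ) (P a A x) := by
    rw [Complex.mul_conj, Complex.normSq_eq_norm_sq]
  rw [h3]
  unfold P
  rw [map_sum, sum_mul_sum]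
  refine sum_congr rfl fun n _ => sum_congr rfl fun l _ => ?_
  have h4 : e (n * x) * (starRingEnd ℂ) (e (l * x)) = e (((n : ℤ) - (l : ℤ) : ℤ) * x) := by
    unfold e
    rw [← Complex.exp_conj, ← Complex.exp_add]
    congr 1
    simp only [map_mul, map_ofNat, Complex.conj_ofReal, Complex.conj_I]
    push_cast
    ring
  rw [map_mul, ← h4]
  ring

lemma int_row (c : ℕ → ℂ) (A : Finset ℕ) (n : ℕ) (hn : n ∈ A) (u : ℝ) (L : ℕ) :
    ∫ x in u..(u + L), ∑ l ∈ A, c l * e (((n : ℤ) - (l : ℤ) : ℤ) * x) = c n * L := by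
  have hi : ∀ l ∈ A, IntervalIntegrable (fun x : ℝ => c l * e (((n : ℤ) - (l : ℤ) : ℤ) * x)) volume u (u + L) := fun l _ =>
    (continuous_const.mul (e_cont _)).intervalIntegrable _ _
  rw [intervalIntegral.integral_finsetSum hi]
  have h1 : ∀ l ∈ A, ∫ x in u..(u + L), c l * e (((n : ℤ) - (l : ℤ) : ℤ) * x) = if l = n then c n * L else 0 := by
    intro l _
    rw [intervalIntegral.integral_const_mul, int_e]
    by_cases h : l = n
    · subst h
      simp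
    · rw [if_neg (by omega), if_neg h, mul_zero]
  rw [sum_congr rfl h1, sum_ite_eq' A n, if_pos hn]

lemma parseval (a : ℕ → ℂ) (A : Finset ℕ) (u : ℝ) (L : ℕ) :
    ∫ x in u..(u + L), ‖P a A x‖ ^ 2 = L * ∑ n ∈ A, ‖a n‖ ^ 2 := by
  have h1 : ((∫ x in u..(u + L), ‖P a A x‖ ^ 2 : ℝ) : ℂ) = ((L * ∑ n ∈ A, ‖a n‖ ^ 2 : ℝ) : ℂ) := by
    rw [← intervalIntegral.integral_ofReal]
    have h2 : (fun x : ℝ => ((‖P a A x‖ ^ 2 : ℝ) : ℂ)) =
        fun x : ℝ => ∑ n ∈ A, ∑ l ∈ A, (a n * (starRingEnd ℂ) (a l)) * e (((n : ℤ) - (l : ℤ) : ℤ) * x) := by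
      funext x
      exact sq_expand a A x
    have hi : ∀ n ∈ A, IntervalIntegrable (fun x : ℝ => ∑ l ∈ A, (a n * (starRingEnd ℂ) (a l)) * e (((n : ℤ) - (l : ℤ) : ℤ) * x))
        volume u (u + L) := fun n _ => by
      have hc : Continuous fun x : ℝ => ∑ l ∈ A, (a n * (starRingEnd ℂ) (a l)) * e (((n : ℤ) - (l : ℤ) : ℤ) * x) :=
        continuous_finsetSum _ fun l _ => continuous_const.mul (e_cont _)
      exact hc.intervalIntegrable _ _
    rw [h2, intervalIntegral.integral_finsetSum hi]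
    rw [sum_congr rfl fun n hn => int_row (fun l => a n * (starRingEnd ℂ) (a l)) A n hn u L]
    rw [Complex.ofReal_mul, Complex.ofReal_sum, mul_sum]
    refine sum_congr rfl fun n _ => ?_
    rw [Complex.mul_conj, Complex.normSq_eq_norm_sq]
    push_cast
    ring
  exact_mod_cast h1

/-- an inequality of Sobolev type -/
lemma sob {f f' : ℝ → ℂ} (hf : ∀ x, HasDerivAt f (f' x) x) (hf' : Continuous f') {p q A z : ℝ} (hpq : p < q) (hA : 0 < A)
    (hz : z ∈ Set.Icc p q) :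
    ‖f z‖ ^ 2 ≤ (q - p)⁻¹ * (∫ x in p..q, ‖f x‖ ^ 2) + ∫ x in p..q, (A * ‖f x‖ ^ 2 + A⁻¹ * ‖f' x‖ ^ 2) := by
  have hfc : Continuous f := continuous_iff_continuousAt.2 fun x => (hf x).continuousAt
  obtain ⟨C, hC⟩ : ∃ C, C = ∫ x in p..q, (A * ‖f x‖ ^ 2 + A⁻¹ * ‖f' x‖ ^ 2) := ⟨_, rfl⟩
  have hcc : Continuous fun x => A * ‖f x‖ ^ 2 + A⁻¹ * ‖f' x‖ ^ 2 := by fun_prop
  have hgc : Continuous fun x => 2 * inner ℝ (f x) (f' x) := by fun_prop
  have hpt : ∀ w ∈ Set.Icc p q, ‖f z‖ ^ 2 ≤ ‖f w‖ ^ 2 + C := by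
    intro w hw
    have h1 : ∫ x in w..z, (2 * inner ℝ (f x) (f' x)) = ‖f z‖ ^ 2 - ‖f w‖ ^ 2 :=
      intervalIntegral.integral_eq_sub_of_hasDerivAt (fun x _ => (hf x).norm_sq) (hgc.intervalIntegrable _ _)
    have h2 : |∫ x in w..z, (2 * inner ℝ (f x) (f' x))| ≤ ∫ x in p..q, (A * ‖f x‖ ^ 2 + A⁻¹ * ‖f' x‖ ^ 2) := by
      have h3 : ‖∫ x in w..z, (2 * inner ℝ (f x) (f' x))‖ ≤ ∫ x in Set.uIoc w z, (A * ‖f x‖ ^ 2 + A⁻¹ * ‖f' x‖ ^ 2) := by
        rw [intervalIntegral.norm_integral_eq_norm_integral_uIoc]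
        refine norm_integral_le_of_norm_le (hcc.integrableOn_uIoc) (Eventually.of_forall fun x => ?_)
        rw [Real.norm_eq_abs, abs_mul, abs_of_pos (two_pos : (0:ℝ) < 2)]
        have h4 := abs_real_inner_le_norm (f x) (f' x)
        have h5 : 2 * (‖f x‖ * ‖f' x‖) ≤ A * ‖f x‖ ^ 2 + A⁻¹ * ‖f' x‖ ^ 2 := by
          have h6 : A * ‖f x‖ ^ 2 + A⁻¹ * ‖f' x‖ ^ 2 - 2 * (‖f x‖ * ‖f' x‖) = A⁻¹ * (A * ‖f x‖ - ‖f' x‖) ^ 2 := by
            field_simp
            ring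
          have h7 : 0 ≤ A⁻¹ * (A * ‖f x‖ - ‖f' x‖) ^ 2 := by positivity
          linarith
        linarith
      rw [Real.norm_eq_abs] at h3
      refine h3.trans ?_
      rw [intervalIntegral.integral_of_le hpq.le]
      refine setIntegral_mono_set (hcc.integrableOn_Ioc) (Eventually.of_forall fun x => by positivity) ?_
      have hsub : Set.uIoc w z ⊆ Set.Ioc p q := by
        intro x hx
        rw [Set.uIoc, Set.mem_Ioc] at hx
        exact ⟨lt_of_le_of_lt (le_min hw.1 hz.1) hx.1, hx.2.trans (max_le hw.2 hz.2)⟩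
      exact hsub.eventuallyLE
    rw [h1] at h2
    have := (abs_le.1 h2).2
    rw [hC]
    linarith
  have hqp : 0 < q - p := sub_pos.2 hpq
  have h3 : ∫ _x in p..q, ‖f z‖ ^ 2 ≤ ∫ w in p..q, (‖f w‖ ^ 2 + C) :=
    intervalIntegral.integral_mono_on hpq.le intervalIntegrable_const
      ((by fun_prop : Continuous fun w => ‖f w‖ ^ 2 + C).intervalIntegrable _ _) hpt
  rw [intervalIntegral.integral_const, smul_eq_mul, intervalIntegral.integral_add
    ((by fun_prop : Continuous fun w => ‖f w‖ ^ 2).intervalIntegrable _ _) intervalIntegrable_const,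
    intervalIntegral.integral_const, smul_eq_mul] at h3
  rw [← hC]
  have h4 : ‖f z‖ ^ 2 = (q - p)⁻¹ * ((q - p) * ‖f z‖ ^ 2) := by field_simp
  rw [h4]
  calc (q - p)⁻¹ * ((q - p) * ‖f z‖ ^ 2) ≤ (q - p)⁻¹ * ((∫ w in p..q, ‖f w‖ ^ 2) + (q - p) * C) := by gcongr
    _ = _ := by field_simp

/-- sums of integrals over overlapping windows -/
lemma windows {g : ℝ → ℝ} (hg : Continuous g) (hg0 : ∀ x, 0 ≤ g x) {u r : ℝ} (hr : 0 < r) (J : ℕ) {L : ℝ} (hL : (J + 2) * r ≤ L) :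
    ∑ j ∈ range J, ∫ x in (u + j * r)..(u + (j + 2) * r), g x ≤ 2 * ∫ x in u..(u + L), g x := by
  have hi : ∀ p q : ℝ, IntervalIntegrable g volume p q := fun p q => hg.intervalIntegrable _ _
  have h1 : ∀ j ∈ range J, ∫ x in (u + j * r)..(u + (j + 2) * r), g x =
      (∫ x in (u + j * r)..(u + (j + 1 : ℕ) * r), g x) + ∫ x in ((u + r) + j * r)..((u + r) + (j + 1 : ℕ) * r), g x := by
    intro j _
    have e1 : u + ((j + 1 : ℕ) : ℝ) * r = (u + r) + j * r := by push_cast; ring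
    have e2 : (u + r) + ((j + 1 : ℕ) : ℝ) * r = u + (j + 2) * r := by push_cast; ring
    rw [e1, e2, intervalIntegral.integral_add_adjacent_intervals (hi _ _) (hi _ _)]
  rw [sum_congr rfl h1, sum_add_distrib]
  have h2 := intervalIntegral.sum_integral_adjacent_intervals (μ := volume) (f := g) (a := fun j : ℕ => u + j * r) (n := J)
    (fun k _ => hi _ _)
  have h3 := intervalIntegral.sum_integral_adjacent_intervals (μ := volume) (f := g) (a := fun j : ℕ => (u + r) + j * r) (n := J)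
    (fun k _ => hi _ _)
  rw [h2, h3]
  have hJ : 0 ≤ (J : ℝ) * r := by positivity
  have hLr : (J : ℝ) * r + 2 * r ≤ L := by linarith
  have h4 : ∫ x in (u + ((0 : ℕ) : ℝ) * r)..(u + J * r), g x ≤ ∫ x in u..(u + L), g x := by
    refine intervalIntegral.integral_mono_interval ?_ ?_ ?_ (Eventually.of_forall hg0) (hi _ _)
    · simp
    · simp; exact hJ
    · linarith
  have h5 : ∫ x in ((u + r) + ((0 : ℕ) : ℝ) * r)..((u + r) + J * r), g x ≤ ∫ x in u..(u + L), g x := by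
    refine intervalIntegral.integral_mono_interval ?_ ?_ ?_ (Eventually.of_forall hg0) (hi _ _)
    · simp; exact hr.le
    · simp; exact hJ
    · linarith
  linarith

/-- the mean square at points of windows -/
theorem at_points (a : ℕ → ℂ) (A : Finset ℕ) {k : ℕ} (hA : ∀ n ∈ A, n ≤ 2 ^ (k + 1)) (u : ℝ) (J L : ℕ)
    (hL : ((J : ℝ) + 2) * (2 ^ k : ℝ)⁻¹ ≤ L) (z : ℕ → ℝ)
    (hz : ∀ j < J, z j ∈ Set.Icc (u + j * (2 ^ k : ℝ)⁻¹) (u + (j + 2) * (2 ^ k : ℝ)⁻¹)) :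
    ∑ j ∈ range J, ‖P a A (z j)‖ ^ 2 ≤ 400 * 2 ^ k * L * ∑ n ∈ A, ‖a n‖ ^ 2 := by
  obtain ⟨r, hr⟩ : ∃ r : ℝ, r = (2 ^ k : ℝ)⁻¹ := ⟨_, rfl⟩
  have hr0 : 0 < r := by rw [hr]; positivity
  rw [← hr] at hL hz
  have hc1 : Continuous fun x => ‖P a A x‖ ^ 2 := (P_cont a A).norm.pow 2
  have hc2 : Continuous fun x => ‖P (da a) A x‖ ^ 2 := (P_cont (da a) A).norm.pow 2
  have hc3 : Continuous fun x => r⁻¹ * ‖P a A x‖ ^ 2 + r⁻¹⁻¹ * ‖P (da a) A x‖ ^ 2 := by fun_prop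
  have h1 : ∀ j ∈ range J, ‖P a A (z j)‖ ^ 2 ≤ (2 * r)⁻¹ * (∫ x in (u + j * r)..(u + (j + 2) * r), ‖P a A x‖ ^ 2) +
      ∫ x in (u + j * r)..(u + (j + 2) * r), (r⁻¹ * ‖P a A x‖ ^ 2 + r⁻¹⁻¹ * ‖P (da a) A x‖ ^ 2) := by
    intro j hj
    have h2 := sob (P_deriv a A) (P_cont (da a) A) (p := u + j * r) (q := u + (j + 2) * r) (A := r⁻¹) (by linarith)
      (by positivity) (hz j (mem_range.1 hj))
    have e1 : u + (j + 2) * r - (u + j * r) = 2 * r := by ring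
    rwa [e1] at h2
  refine (sum_le_sum h1).trans ?_
  rw [sum_add_distrib, ← mul_sum]
  have h3 := windows hc1 (fun x => by positivity) (u := u) hr0 J hL
  have h4 := windows hc3 (fun x => by positivity) (u := u) hr0 J hL
  have h5 : ∫ x in u..(u + L), (r⁻¹ * ‖P a A x‖ ^ 2 + r⁻¹⁻¹ * ‖P (da a) A x‖ ^ 2) =
      r⁻¹ * (L * ∑ n ∈ A, ‖a n‖ ^ 2) + r * (L * ∑ n ∈ A, ‖da a n‖ ^ 2) := by
    have i1 : IntervalIntegrable (fun x => r⁻¹ * ‖P a A x‖ ^ 2) volume u (u + L) :=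
      (continuous_const.mul hc1).intervalIntegrable _ _
    have i2 : IntervalIntegrable (fun x => r⁻¹⁻¹ * ‖P (da a) A x‖ ^ 2) volume u (u + L) :=
      (continuous_const.mul hc2).intervalIntegrable _ _
    rw [intervalIntegral.integral_add i1 i2, intervalIntegral.integral_const_mul,
      intervalIntegral.integral_const_mul, parseval, parseval, inv_inv]
  rw [parseval] at h3
  rw [h5] at h4
  have h6 : ∑ n ∈ A, ‖da a n‖ ^ 2 ≤ (2 * Real.pi * (2 * r⁻¹)) ^ 2 * ∑ n ∈ A, ‖a n‖ ^ 2 := by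
    rw [mul_sum]
    refine sum_le_sum fun n hn => ?_
    unfold da
    rw [norm_mul, mul_pow]
    refine mul_le_mul_of_nonneg_right ?_ (by positivity)
    have h7 : ‖(2 * Real.pi * I * n : ℂ)‖ = 2 * Real.pi * n := by
      simp [abs_of_pos Real.pi_pos]
    rw [h7]
    have h8 : (n : ℝ) ≤ 2 * r⁻¹ := by
      rw [hr, inv_inv]
      have := hA n hn
      have h9 : (n : ℝ) ≤ ((2 ^ (k + 1) : ℕ) : ℝ) := by exact_mod_cast this
      refine h9.trans (le_of_eq ?_)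
      push_cast
      ring
    have hpi := Real.pi_pos
    gcongr
  obtain ⟨S, hS⟩ : ∃ S, S = ∑ n ∈ A, ‖a n‖ ^ 2 := ⟨_, rfl⟩
  have hS0 : 0 ≤ S := by rw [hS]; positivity
  rw [← hS] at h3 h4 h6 ⊢
  have hri : r⁻¹ = 2 ^ k := by rw [hr, inv_inv]
  have hri0 : 0 < r⁻¹ := by positivity
  have hrr : r * r⁻¹ = 1 := mul_inv_cancel₀ hr0.ne'
  have hL0 : (0:ℝ) ≤ L := by positivity
  have hpi : Real.pi ^ 2 ≤ 10 := by
    have h9 := Real.pi_lt_d2
    have h10 := Real.pi_pos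
    nlinarith
  have q1 : (2 * r)⁻¹ * ∑ j ∈ range J, ∫ x in (u + j * r)..(u + (j + 2) * r), ‖P a A x‖ ^ 2 ≤ r⁻¹ * (L * S) := by
    have : (2 * r)⁻¹ = 2⁻¹ * r⁻¹ := by rw [mul_inv]
    calc (2 * r)⁻¹ * ∑ j ∈ range J, ∫ x in (u + j * r)..(u + (j + 2) * r), ‖P a A x‖ ^ 2 ≤ (2 * r)⁻¹ * (2 * (L * S)) := by
          gcongr
      _ = _ := by rw [this]; ring
  have q2 : r * (L * ∑ n ∈ A, ‖da a n‖ ^ 2) ≤ 160 * (r⁻¹ * (L * S)) := by
    calc r * (L * ∑ n ∈ A, ‖da a n‖ ^ 2) ≤ r * (L * ((2 * Real.pi * (2 * r⁻¹)) ^ 2 * S)) := by gcongr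
      _ = (16 * Real.pi ^ 2) * ((r * r⁻¹) * (r⁻¹ * (L * S))) := by ring
      _ = (16 * Real.pi ^ 2) * (r⁻¹ * (L * S)) := by rw [hrr, one_mul]
      _ ≤ 160 * (r⁻¹ * (L * S)) := by
          refine mul_le_mul_of_nonneg_right (by linarith) (by positivity)
  have q3 : 0 ≤ r⁻¹ * (L * S) := by positivity
  rw [← hri]
  calc _ ≤ r⁻¹ * (L * S) + 2 * (r⁻¹ * (L * S) + 160 * (r⁻¹ * (L * S))) := by
        refine add_le_add q1 (h4.trans ?_)
        linarith
    _ ≤ 400 * r⁻¹ * L * S := by nlinarith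

end Pool.Agent.Run7.h290.FT
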