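import Pool.Agent.Run7.h290.FT.B

set_option autoImplicit false

/-! The Hausdorff dimension of the exceptional set. -/

namespace Pool.Agent.Run7.h290.FT

open Finset Filter MeasureTheory Topology Complex MeasureTheory.Measure
open scoped ENNReal NNReal

/-- `K k` is covered by at most `C 2^(k(s+ε))` intervals of length `2^(-k)` -/
def Cov (K : ℕ → Set ℝ) (s : ℝ) : Prop := ∀ ε : ℝ, 0 < ε → ∃ C : ℝ, 0 < C ∧ ∀ k : ℕ, ∃ F : Finset ℝ,
  (F.card : ℝ) ≤ C * ((2:ℝ) ^ k) ^ (s + ε) ∧ K k ⊆ ⋃ c ∈ F, Set.Icc c (c + ((2:ℝ) ^ k)⁻¹)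

/-- the exceptional set -/
def Bad (a : ℕ → ℂ) (α : ℝ) (K : ℕ → Set ℝ) : Set ℝ :=
  {y : ℝ | ∃ᶠ R : ℕ in atTop, ∃ x ∈ K (Nat.log 2 R), (R : ℝ) ^ α ≤ ‖P a (Ioc 0 R) (x + y)‖}

/-- the cells -/
def cell (M : ℝ) (k j : ℕ) : Set ℝ := Set.Icc (-M + j * ((2:ℝ) ^ k)⁻¹) (-M + (j + 1) * ((2:ℝ) ^ k)⁻¹)

lemma cell_diam (M : ℝ) (k j : ℕ) : Metric.ediam (cell M k j) = ENNReal.ofReal (((2:ℝ) ^ k)⁻¹) := by
  unfold cell
  rw [Real.ediam_Icc]
  congr 1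
  ring

/-- the property of a window -/
def Win (a : ℕ → ℂ) (α u : ℝ) (k j : ℕ) : Prop :=
  ∃ z ∈ Set.Icc (u + j * ((2:ℝ) ^ k)⁻¹) (u + (j + 2) * ((2:ℝ) ^ k)⁻¹), ∃ R < 2 ^ (k + 1), ((2:ℝ) ^ k) ^ α ≤ ‖P a (Ioc 0 R) z‖

open Classical in
/-- the bad cells -/
noncomputable def BJ (a : ℕ → ℂ) (α : ℝ) (F : Finset ℝ) (M k : ℕ) : Finset ℕ :=
  (range (2 * M * 2 ^ k)).filter fun j => ∃ c ∈ F, Win a α (c - M) k j

open Classical in
lemma mem_BJ {a : ℕ → ℂ} {α : ℝ} {F : Finset ℝ} {M k j : ℕ} :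
    j ∈ BJ a α F M k ↔ j < 2 * M * 2 ^ k ∧ ∃ c ∈ F, Win a α (c - M) k j := by
  unfold BJ
  rw [mem_filter, mem_range]

open Classical in
lemma BJ_card {a : ℕ → ℂ} (ha : ∀ n, ‖a n‖ ≤ 1) (α : ℝ) (F : Finset ℝ) (M k : ℕ) :
    ((BJ a α F M k).card : ℝ) ≤ F.card * (800 * (2 * M + 2) * ((k:ℝ) + 1) ^ 2 * (2 ^ k) ^ 2 / (((2:ℝ) ^ k) ^ α) ^ 2) := by
  have h1 : BJ a α F M k ⊆ F.biUnion fun c => (range (2 * M * 2 ^ k)).filter fun j => Win a α (c - M) k j := by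
    intro j hj
    unfold BJ at hj
    rw [mem_filter] at hj
    obtain ⟨hj1, c, hc, hw⟩ := hj
    exact mem_biUnion.2 ⟨c, hc, mem_filter.2 ⟨hj1, hw⟩⟩
  have h2 := (card_le_card h1).trans card_biUnion_le
  have h3 : ((BJ a α F M k).card : ℝ) ≤ ∑ c ∈ F, (((range (2 * M * 2 ^ k)).filter fun j => Win a α (c - M) k j).card : ℝ) := by
    exact_mod_cast h2
  refine h3.trans ?_
  rw [← nsmul_eq_mul, ← sum_const]
  refine sum_le_sum fun c _ => ?_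
  have h4 := count ha k (c - M) (2 * M * 2 ^ k) (2 * M + 2) (V := ((2:ℝ) ^ k) ^ α) (by
    push_cast
    have h5 : (1:ℝ) ≤ 2 ^ k := one_le_pow₀ (by norm_num)
    have h6 : (0:ℝ) < 2 ^ k := by positivity
    rw [← div_eq_mul_inv, div_le_iff₀ h6]
    nlinarith) (by positivity)
  refine le_trans (le_of_eq ?_) (h4.trans (le_of_eq ?_))
  · congr 2
  · push_cast
    ring

/-- the terms of the series -/
noncomputable def gk (C ε : ℝ) (k : ℕ) : ℝ := C * (((k:ℝ) + 1) ^ 2 * ((2:ℝ) ^ (-ε)) ^ k)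

lemma gk_summable (C : ℝ) {ε : ℝ} (hε : 0 < ε) : Summable (gk C ε) := by
  unfold gk
  refine Summable.mul_left C ?_
  have hr0 : 0 < (2:ℝ) ^ (-ε) := by positivity
  have hr : (2:ℝ) ^ (-ε) < 1 := Real.rpow_lt_one_of_one_lt_of_neg (by norm_num) (by linarith)
  have h1 := summable_pow_mul_geometric_of_norm_lt_one 2 (r := (2:ℝ) ^ (-ε)) (by rw [Real.norm_of_nonneg hr0.le]; exact hr)
  have h2 := ((summable_nat_add_iff 1).2 h1).mul_left ((2:ℝ) ^ (-ε))⁻¹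
  refine h2.congr fun k => ?_
  have e1 : ((2:ℝ) ^ (-ε)) ^ (k + 1) = ((2:ℝ) ^ (-ε)) ^ k * (2:ℝ) ^ (-ε) := pow_succ _ _
  rw [e1]
  push_cast
  field_simp

theorem zero {a : ℕ → ℂ} (ha : ∀ n, ‖a n‖ ≤ 1) {α s d : ℝ} (hα : 0 ≤ α) (hd0 : 0 < d) (hd : s + 2 - 2 * α < d)
    {K : ℕ → Set ℝ} (hK : Cov K s) (M : ℕ) : μH[d] (Bad a α K ∩ Set.Ico (-(M:ℝ)) M) = 0 := by
  obtain ⟨ε, hε⟩ : ∃ ε, ε = (d - (s + 2 - 2 * α)) / 2 := ⟨_, rfl⟩
  have hε0 : 0 < ε := by rw [hε]; linarith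
  obtain ⟨C, hC, hF⟩ := hK ε hε0
  choose F hF1 hF2 using hF
  obtain ⟨C', hC'⟩ : ∃ C', C' = C * (800 * (2 * M + 2)) := ⟨_, rfl⟩
  have hC'0 : 0 ≤ C' := by rw [hC']; positivity
  -- the sum over one level
  have hlev : ∀ k : ℕ, ((BJ a α (F k) M k).card : ℝ) * (((2:ℝ) ^ k)⁻¹) ^ d ≤ gk C' ε k := by
    intro k
    obtain ⟨X, hX⟩ : ∃ X : ℝ, X = (2:ℝ) ^ k := ⟨_, rfl⟩
    have hX0 : 0 < X := by rw [hX]; positivity
    have h1 := BJ_card ha α (F k) M k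
    have h2 := hF1 k
    rw [← hX] at h1 h2 ⊢
    have h3 : ((BJ a α (F k) M k).card : ℝ) ≤ (C * X ^ (s + ε)) * (800 * (2 * M + 2) * ((k:ℝ) + 1) ^ 2 * X ^ 2 / (X ^ α) ^ 2) :=
      h1.trans (mul_le_mul_of_nonneg_right h2 (by positivity))
    have e1 : X ^ (s + ε) * (X ^ 2 / (X ^ α) ^ 2) * (X⁻¹) ^ d = X ^ (-ε) := by
      rw [Real.inv_rpow hX0.le, ← Real.rpow_neg hX0.le, ← Real.rpow_natCast X 2, ← Real.rpow_natCast (X ^ α) 2,
        ← Real.rpow_mul hX0.le, ← Real.rpow_sub hX0, ← Real.rpow_add hX0, ← Real.rpow_add hX0]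
      congr 1
      push_cast
      rw [hε]
      ring
    have e2 : X ^ (-ε) = ((2:ℝ) ^ (-ε)) ^ k := by
      rw [hX, ← Real.rpow_natCast, ← Real.rpow_natCast, ← Real.rpow_mul (by norm_num), ← Real.rpow_mul (by norm_num)]
      congr 1
      ring
    calc ((BJ a α (F k) M k).card : ℝ) * (X⁻¹) ^ d ≤
        ((C * X ^ (s + ε)) * (800 * (2 * M + 2) * ((k:ℝ) + 1) ^ 2 * X ^ 2 / (X ^ α) ^ 2)) * (X⁻¹) ^ d := by gcongr
      _ = C' * (((k:ℝ) + 1) ^ 2 * (X ^ (s + ε) * (X ^ 2 / (X ^ α) ^ 2) * (X⁻¹) ^ d)) := by rw [hC']; ring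
      _ = gk C' ε k := by rw [e1, e2]; rfl
  -- the covers
  obtain ⟨t, ht⟩ : ∃ t : ℕ → ℕ × ℕ → Set ℝ, t = fun k0 q => if q.2 ∈ BJ a α (F (k0 + q.1)) M (k0 + q.1) then cell M (k0 + q.1) q.2 else ∅ :=
    ⟨_, rfl⟩
  have htd : ∀ k0 q, Metric.ediam (t k0 q) ≤ ENNReal.ofReal (((2:ℝ) ^ k0)⁻¹) := by
    intro k0 q
    rw [ht]
    simp only
    split_ifs
    · rw [cell_diam]
      refine ENNReal.ofReal_le_ofReal ?_
      rw [pow_add, mul_inv]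
      exact mul_le_of_le_one_right (by positivity) (inv_le_one_of_one_le₀ (one_le_pow₀ (by norm_num)))
    · simp
  have hcov : ∀ k0, Bad a α K ∩ Set.Ico (-(M:ℝ)) M ⊆ ⋃ q, t k0 q := by
    intro k0 y hy
    obtain ⟨hy1, hy2, hy3⟩ := hy
    obtain ⟨R, hR, x, hx, hxR⟩ := frequently_atTop.1 hy1 (2 ^ k0)
    obtain ⟨k, hk⟩ : ∃ k, k = Nat.log 2 R := ⟨_, rfl⟩
    have hR0 : R ≠ 0 := by
      have : 0 < 2 ^ k0 := by positivity
      omega
    have hk0 : k0 ≤ k := by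
      rw [hk]
      exact Nat.le_log_of_pow_le (by norm_num) hR
    have hkR : 2 ^ k ≤ R := by rw [hk]; exact Nat.pow_log_le_self 2 hR0
    have hRk : R < 2 ^ (k + 1) := by rw [hk]; exact Nat.lt_pow_succ_log_self (by norm_num) R
    rw [← hk] at hx
    have hxF := hF2 k hx
    simp only [Set.mem_iUnion, exists_prop] at hxF
    obtain ⟨c, hc, hxc⟩ := hxF
    obtain ⟨r, hr⟩ : ∃ r : ℝ, r = ((2:ℝ) ^ k)⁻¹ := ⟨_, rfl⟩
    have h2k : (0:ℝ) < 2 ^ k := by positivity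
    have hr0 : 0 < r := by rw [hr]; positivity
    have hr2 : r * 2 ^ k = 1 := by rw [hr]; exact inv_mul_cancel₀ h2k.ne'
    obtain ⟨j, hj⟩ : ∃ j : ℕ, j = ⌊(y + M) * 2 ^ k⌋₊ := ⟨_, rfl⟩
    have hyM : 0 ≤ (y + M) * 2 ^ k := mul_nonneg (by linarith) h2k.le
    have hj1 : (j:ℝ) ≤ (y + M) * 2 ^ k := by rw [hj]; exact Nat.floor_le hyM
    have hj2 : (y + M) * 2 ^ k < j + 1 := by rw [hj]; exact Nat.lt_floor_add_one _
    have hj3 : (j:ℝ) * r ≤ y + M := by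
      calc (j:ℝ) * r ≤ ((y + M) * 2 ^ k) * r := mul_le_mul_of_nonneg_right hj1 hr0.le
        _ = (y + M) * (r * 2 ^ k) := by ring
        _ = y + M := by rw [hr2, mul_one]
    have hj4 : y + M ≤ (j + 1) * r := by
      calc y + M = ((y + M) * 2 ^ k) * r := by rw [mul_assoc, mul_comm ((2:ℝ) ^ k) r, hr2, mul_one]
        _ ≤ (j + 1) * r := mul_le_mul_of_nonneg_right hj2.le hr0.le
    have hjJ : j < 2 * M * 2 ^ k := by
      have h5 : (j:ℝ) < ((2 * M * 2 ^ k : ℕ) : ℝ) := by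
        push_cast
        refine lt_of_le_of_lt hj1 ?_
        have : y + M < 2 * M := by linarith
        exact mul_lt_mul_of_pos_right this h2k
      exact_mod_cast h5
    refine Set.mem_iUnion.2 ⟨(k - k0, j), ?_⟩
    rw [ht]
    simp only
    rw [show k0 + (k - k0) = k by omega, if_pos]
    · unfold cell
      rw [← hr]
      constructor <;> linarith
    · refine mem_BJ.2 ⟨hjJ, c, hc, x + y, ?_, R, hRk, ?_⟩
      · rw [← hr] at hxc ⊢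
        obtain ⟨g1, g2⟩ := hxc
        constructor <;> linarith
      · refine le_trans ?_ hxR
        refine Real.rpow_le_rpow (by positivity) ?_ hα
        exact_mod_cast hkR
  have hr : Tendsto (fun k0 : ℕ => ENNReal.ofReal (((2:ℝ) ^ k0)⁻¹)) atTop (𝓝 0) := by
    rw [← ENNReal.ofReal_zero]
    refine ENNReal.tendsto_ofReal ?_
    have h1 := tendsto_pow_atTop_nhds_zero_of_lt_one (r := (2:ℝ)⁻¹) (by norm_num) (by norm_num)
    simpa [inv_pow] using h1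
  have hmain := hausdorffMeasure_le_liminf_tsum (ι := fun _ : ℕ => ℕ × ℕ) d (Bad a α K ∩ Set.Ico (-(M:ℝ)) M) (l := atTop)
    (fun k0 : ℕ => ENNReal.ofReal (((2:ℝ) ^ k0)⁻¹)) hr t (Eventually.of_forall htd) (Eventually.of_forall hcov)
  -- the sums
  have hsum : ∀ k0, ∑' q, Metric.ediam (t k0 q) ^ d ≤ ENNReal.ofReal (∑' i, gk C' ε (i + k0)) := by
    intro k0
    have hg0 : ∀ i, 0 ≤ gk C' ε (i + k0) := by
      intro i
      unfold gk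
      positivity
    rw [ENNReal.ofReal_tsum_of_nonneg hg0 ((summable_nat_add_iff k0).2 (gk_summable C' hε0)), ENNReal.tsum_prod']
    refine ENNReal.tsum_le_tsum fun i => ?_
    have h1 : ∀ j, Metric.ediam (t k0 (i, j)) ^ d = if j ∈ BJ a α (F (k0 + i)) M (k0 + i) then
        ENNReal.ofReal ((((2:ℝ) ^ (k0 + i))⁻¹) ^ d) else 0 := by
      intro j
      rw [ht]
      simp only
      split_ifs
      · rw [cell_diam, ENNReal.ofReal_rpow_of_nonneg (by positivity) hd0.le]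
      · simp [hd0]
    simp_rw [h1]
    rw [tsum_eq_sum (s := BJ a α (F (k0 + i)) M (k0 + i)) (fun j hj => if_neg hj)]
    rw [sum_congr rfl fun j hj => if_pos hj, sum_const, nsmul_eq_mul]
    have h2 : ((BJ a α (F (k0 + i)) M (k0 + i)).card : ℝ≥0∞) * ENNReal.ofReal ((((2:ℝ) ^ (k0 + i))⁻¹) ^ d) =
        ENNReal.ofReal (((BJ a α (F (k0 + i)) M (k0 + i)).card : ℝ) * (((2:ℝ) ^ (k0 + i))⁻¹) ^ d) := by
      rw [ENNReal.ofReal_mul (by positivity), ENNReal.ofReal_natCast]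
    rw [h2, add_comm i k0]
    exact ENNReal.ofReal_le_ofReal (hlev (k0 + i))
  have hlim : Tendsto (fun k0 => ∑' q, Metric.ediam (t k0 q) ^ d) atTop (𝓝 0) := by
    refine tendsto_of_tendsto_of_tendsto_of_le_of_le tendsto_const_nhds ?_ (fun _ => zero_le) hsum
    rw [← ENNReal.ofReal_zero]
    exact ENNReal.tendsto_ofReal (tendsto_sum_nat_add (gk C' ε))
  rw [hlim.liminf_eq] at hmain
  exact le_antisymm hmain zero_le

lemma bad_union (a : ℕ → ℂ) (α : ℝ) (K : ℕ → Set ℝ) : Bad a α K = ⋃ M : ℕ, Bad a α K ∩ Set.Ico (-(M:ℝ)) M := by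
  rw [← Set.inter_iUnion]
  refine (Set.inter_eq_left.2 fun y _ => ?_).symm
  obtain ⟨M, hM⟩ := exists_nat_gt |y|
  refine Set.mem_iUnion.2 ⟨M, ?_, ?_⟩
  · have := neg_abs_le y
    linarith
  · exact lt_of_le_of_lt (le_abs_self y) hM

/-- the dimension of the exceptional set -/
theorem dim_le {a : ℕ → ℂ} (ha : ∀ n, ‖a n‖ ≤ 1) {α s : ℝ} (hα : 0 ≤ α) {K : ℕ → Set ℝ} (hK : Cov K s) :
    dimH (Bad a α K) ≤ ENNReal.ofReal (s + 2 - 2 * α) := by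
  rw [bad_union, dimH_iUnion]
  refine iSup_le fun M => ?_
  refine ENNReal.le_of_forall_pos_le_add fun ε hε _ => ?_
  obtain ⟨d, hd⟩ : ∃ d : ℝ≥0, d = Real.toNNReal (s + 2 - 2 * α) + ε := ⟨_, rfl⟩
  have hε' : (0:ℝ) < ε := hε
  have hd1 : (d : ℝ) = max (s + 2 - 2 * α) 0 + ε := by
    rw [hd, NNReal.coe_add, Real.coe_toNNReal']
  have h0 : (0:ℝ) < d := by
    rw [hd1]
    have := le_max_right (s + 2 - 2 * α) 0
    linarith
  have h1 : s + 2 - 2 * α < d := by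
    rw [hd1]
    have := le_max_left (s + 2 - 2 * α) 0
    linarith
  have h2 := zero ha hα h0 h1 hK M
  have h3 : dimH (Bad a α K ∩ Set.Ico (-(M:ℝ)) M) ≤ d := dimH_le_of_hausdorffMeasure_ne_top (by rw [h2]; exact ENNReal.zero_ne_top)
  refine h3.trans (le_of_eq ?_)
  rw [hd, ENNReal.coe_add]
  rfl

/-- almost all translates -/
theorem ae {a : ℕ → ℂ} (ha : ∀ n, ‖a n‖ ≤ 1) {α s : ℝ} (hα : 0 ≤ α) (hs : (1 + s) / 2 < α) {K : ℕ → Set ℝ} (hK : Cov K s) :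
    volume (Bad a α K) = 0 := by
  rw [bad_union]
  refine measure_iUnion_null fun M => ?_
  have h := zero ha hα one_pos (by linarith) hK M
  rwa [hausdorffMeasure_real] at h

end Pool.Agent.Run7.h290.FT
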