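import Pool.Agent.Run7.h290.FT.A

set_option autoImplicit false

/-! All partial sums at once, and the count of the windows with a large value. -/

namespace Pool.Agent.Run7.h290.FT

open Finset Filter MeasureTheory Topology Complex

/-- the block of length `2^l` after `c` -/
noncomputable def Bl (v : ℕ → ℂ) (l c : ℕ) : ℂ := ∑ n ∈ Ioc c (c + 2 ^ l), v n

/-- the squares of the blocks at level `l` -/
noncomputable def Q (v : ℕ → ℂ) (l k c : ℕ) : ℝ := ∑ b ∈ range (2 ^ (k - l)), ‖Bl v l (c + b * 2 ^ l)‖ ^ 2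

lemma Q_nn (v : ℕ → ℂ) (l k c : ℕ) : 0 ≤ Q v l k c := sum_nonneg fun _ _ => by positivity

lemma Q_mono (v : ℕ → ℂ) {l k : ℕ} (c : ℕ) : Q v l k c ≤ Q v l (k + 1) c := by
  unfold Q
  refine sum_le_sum_of_subset_of_nonneg ?_ fun _ _ _ => by positivity
  intro b hb
  rw [mem_range] at hb ⊢
  exact hb.trans_le (Nat.pow_le_pow_right (by norm_num) (by omega))

lemma Q_shift (v : ℕ → ℂ) {l k : ℕ} (hlk : l < k) (c : ℕ) : Q v l k (c + 2 ^ k) ≤ Q v l (k + 1) c := by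
  unfold Q
  have h1 : ∑ b ∈ range (2 ^ (k - l)), ‖Bl v l (c + 2 ^ k + b * 2 ^ l)‖ ^ 2 =
      ∑ b ∈ Ico (2 ^ (k - l)) (2 ^ (k + 1 - l)), ‖Bl v l (c + b * 2 ^ l)‖ ^ 2 := by
    have e2 : 2 ^ (k + 1 - l) - 2 ^ (k - l) = 2 ^ (k - l) := by
      rw [show k + 1 - l = (k - l) + 1 by omega, pow_succ]
      omega
    rw [sum_Ico_eq_sum_range, e2]
    refine sum_congr rfl fun b _ => ?_
    have e1 : 2 ^ k = 2 ^ (k - l) * 2 ^ l := by rw [← pow_add]; congr 1; omega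
    rw [add_mul, ← e1]
    congr 3
    ring
  rw [h1]
  refine sum_le_sum_of_subset_of_nonneg ?_ fun _ _ _ => by positivity
  intro b hb
  rw [mem_Ico] at hb
  exact mem_range.2 hb.2

/-- the partial sums and the blocks -/
theorem rm (v : ℕ → ℂ) (k : ℕ) : ∀ c R : ℕ, R < 2 ^ k → ‖∑ n ∈ Ioc c (c + R), v n‖ ≤ ∑ l ∈ range k, Real.sqrt (Q v l k c) := by
  induction k with
  | zero =>
    intro c R hR
    have : R = 0 := by simpa using hR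
    subst this
    simp
  | succ k ih =>
    intro c R hR
    rw [sum_range_succ]
    rcases lt_or_ge R (2 ^ k) with h | h
    · have h1 : ∑ l ∈ range k, Real.sqrt (Q v l k c) ≤ ∑ l ∈ range k, Real.sqrt (Q v l (k + 1) c) :=
        sum_le_sum fun l _ => Real.sqrt_le_sqrt (Q_mono v c)
      have h2 := Real.sqrt_nonneg (Q v k (k + 1) c)
      linarith [ih c R h]
    · obtain ⟨R', rfl⟩ : ∃ R', R = 2 ^ k + R' := ⟨R - 2 ^ k, by omega⟩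
      have hR' : R' < 2 ^ k := by rw [pow_succ] at hR; omega
      have h1 : ∑ n ∈ Ioc c (c + (2 ^ k + R')), v n = Bl v k c + ∑ n ∈ Ioc (c + 2 ^ k) (c + 2 ^ k + R'), v n := by
        unfold Bl
        rw [← add_assoc]
        exact (sum_Ioc_consecutive v (by omega) (by omega)).symm
      have h2 : ‖Bl v k c‖ ≤ Real.sqrt (Q v k (k + 1) c) := by
        refine Real.le_sqrt_of_sq_le ?_
        unfold Q
        have h3 := single_le_sum (f := fun b => ‖Bl v k (c + b * 2 ^ k)‖ ^ 2) (s := range (2 ^ (k + 1 - k)))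
          (fun _ _ => by positivity) (mem_range.2 (Nat.pos_of_ne_zero (by positivity)) : 0 ∈ range (2 ^ (k + 1 - k)))
        simpa using h3
      have h3 : ∑ l ∈ range k, Real.sqrt (Q v l k (c + 2 ^ k)) ≤ ∑ l ∈ range k, Real.sqrt (Q v l (k + 1) c) :=
        sum_le_sum fun l hl => Real.sqrt_le_sqrt (Q_shift v (mem_range.1 hl) c)
      rw [h1]
      refine (norm_add_le _ _).trans ?_
      linarith [ih (c + 2 ^ k) R' hR']

theorem rm_sq (v : ℕ → ℂ) (k R : ℕ) (hR : R < 2 ^ k) : ‖∑ n ∈ Ioc 0 R, v n‖ ^ 2 ≤ k * ∑ l ∈ range k, Q v l k 0 := by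
  have h1 := rm v k 0 R hR
  rw [zero_add] at h1
  have h2 := sq_sum_le_card_mul_sum_sq (s := range k) (f := fun l => Real.sqrt (Q v l k 0))
  rw [card_range] at h2
  have h3 : ∑ l ∈ range k, Real.sqrt (Q v l k 0) ^ 2 = ∑ l ∈ range k, Q v l k 0 :=
    sum_congr rfl fun l _ => Real.sq_sqrt (Q_nn _ _ _ _)
  rw [h3] at h2
  exact (pow_le_pow_left₀ (norm_nonneg _) h1 2).trans h2

/-- the partial sums at points of windows -/
theorem points {a : ℕ → ℂ} (ha : ∀ n, ‖a n‖ ≤ 1) (k : ℕ) (u : ℝ) (J L : ℕ) (hL : ((J : ℝ) + 2) * (2 ^ k : ℝ)⁻¹ ≤ L)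
    (z : ℕ → ℝ) (R : ℕ → ℕ) (hz : ∀ j < J, z j ∈ Set.Icc (u + j * (2 ^ k : ℝ)⁻¹) (u + (j + 2) * (2 ^ k : ℝ)⁻¹))
    (hR : ∀ j < J, R j < 2 ^ (k + 1)) :
    ∑ j ∈ range J, ‖P a (Ioc 0 (R j)) (z j)‖ ^ 2 ≤ 800 * L * ((k:ℝ) + 1) ^ 2 * (2 ^ k) ^ 2 := by
  have h1 : ∀ j ∈ range J, ‖P a (Ioc 0 (R j)) (z j)‖ ^ 2 ≤
      ((k:ℝ) + 1) * ∑ l ∈ range (k + 1), ∑ b ∈ range (2 ^ (k + 1 - l)), ‖P a (Ioc (b * 2 ^ l) (b * 2 ^ l + 2 ^ l)) (z j)‖ ^ 2 := by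
    intro j hj
    have h2 := rm_sq (fun n => a n * e (n * z j)) (k + 1) (R j) (hR j (mem_range.1 hj))
    unfold Q Bl at h2
    simp only [zero_add] at h2
    push_cast at h2
    exact h2
  refine (sum_le_sum h1).trans ?_
  rw [← mul_sum, sum_comm]
  have h2 : ∀ l ∈ range (k + 1), ∑ j ∈ range J, ∑ b ∈ range (2 ^ (k + 1 - l)),
      ‖P a (Ioc (b * 2 ^ l) (b * 2 ^ l + 2 ^ l)) (z j)‖ ^ 2 ≤ 800 * L * (2 ^ k) ^ 2 := by
    intro l hl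
    have hl' : l ≤ k := by
      have := mem_range.1 hl
      omega
    rw [sum_comm]
    have h3 : ∀ b ∈ range (2 ^ (k + 1 - l)), ∑ j ∈ range J, ‖P a (Ioc (b * 2 ^ l) (b * 2 ^ l + 2 ^ l)) (z j)‖ ^ 2 ≤
        400 * 2 ^ k * L * 2 ^ l := by
      intro b hb
      have hb' := mem_range.1 hb
      have h4 := at_points a (Ioc (b * 2 ^ l) (b * 2 ^ l + 2 ^ l)) (k := k) (by
        intro n hn
        rw [mem_Ioc] at hn
        have h5 : b * 2 ^ l + 2 ^ l ≤ 2 ^ (k + 1) := by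
          calc b * 2 ^ l + 2 ^ l = (b + 1) * 2 ^ l := by ring
            _ ≤ 2 ^ (k + 1 - l) * 2 ^ l := Nat.mul_le_mul_right _ hb'
            _ = 2 ^ (k + 1) := by rw [← pow_add]; congr 1; omega
        omega) u J L hL z hz
      refine h4.trans ?_
      have h6 : ∑ n ∈ Ioc (b * 2 ^ l) (b * 2 ^ l + 2 ^ l), ‖a n‖ ^ 2 ≤ 2 ^ l := by
        calc ∑ n ∈ Ioc (b * 2 ^ l) (b * 2 ^ l + 2 ^ l), ‖a n‖ ^ 2 ≤ ∑ _n ∈ Ioc (b * 2 ^ l) (b * 2 ^ l + 2 ^ l), (1:ℝ) :=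
              sum_le_sum fun n _ => pow_le_one₀ (norm_nonneg _) (ha n)
          _ = 2 ^ l := by simp
      exact mul_le_mul_of_nonneg_left h6 (by positivity)
    refine (sum_le_sum h3).trans ?_
    rw [sum_const, card_range, nsmul_eq_mul]
    have e1 : (((2 ^ (k + 1 - l) : ℕ) : ℝ)) * 2 ^ l = 2 * 2 ^ k := by
      push_cast
      rw [← pow_add, show k + 1 - l + l = k + 1 by omega, pow_succ]
      ring
    calc ((2 ^ (k + 1 - l) : ℕ) : ℝ) * (400 * 2 ^ k * L * 2 ^ l) = 400 * 2 ^ k * L * (((2 ^ (k + 1 - l) : ℕ) : ℝ) * 2 ^ l) := by ring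
      _ = 800 * L * (2 ^ k) ^ 2 := by rw [e1]; ring
      _ ≤ _ := le_rfl
  have h3 := sum_le_sum h2
  rw [sum_const, card_range, nsmul_eq_mul] at h3
  have hk : (0:ℝ) ≤ (k:ℝ) + 1 := by positivity
  calc ((k:ℝ) + 1) * ∑ l ∈ range (k + 1), ∑ j ∈ range J, ∑ b ∈ range (2 ^ (k + 1 - l)),
        ‖P a (Ioc (b * 2 ^ l) (b * 2 ^ l + 2 ^ l)) (z j)‖ ^ 2 ≤ ((k:ℝ) + 1) * (((k + 1 : ℕ) : ℝ) * (800 * L * (2 ^ k) ^ 2)) :=
        mul_le_mul_of_nonneg_left h3 hk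
    _ = _ := by push_cast; ring

open Classical in
/-- the number of windows with a large value -/
theorem count {a : ℕ → ℂ} (ha : ∀ n, ‖a n‖ ≤ 1) (k : ℕ) (u : ℝ) (J L : ℕ) (hL : ((J : ℝ) + 2) * (2 ^ k : ℝ)⁻¹ ≤ L)
    {V : ℝ} (hV : 0 < V) : (((range J).filter fun j : ℕ => ∃ z ∈ Set.Icc (u + j * (2 ^ k : ℝ)⁻¹) (u + (j + 2) * (2 ^ k : ℝ)⁻¹),
      ∃ R < 2 ^ (k + 1), V ≤ ‖P a (Ioc 0 R) z‖).card : ℝ) ≤ 800 * L * ((k:ℝ) + 1) ^ 2 * (2 ^ k) ^ 2 / V ^ 2 := by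
  obtain ⟨p, hp⟩ : ∃ p : ℕ → Prop, p = fun j : ℕ => ∃ z ∈ Set.Icc (u + j * (2 ^ k : ℝ)⁻¹) (u + (j + 2) * (2 ^ k : ℝ)⁻¹),
      ∃ R < 2 ^ (k + 1), V ≤ ‖P a (Ioc 0 R) z‖ := ⟨_, rfl⟩
  have hex : ∀ j : ℕ, ∃ w : ℝ × ℕ, w.1 ∈ Set.Icc (u + j * (2 ^ k : ℝ)⁻¹) (u + (j + 2) * (2 ^ k : ℝ)⁻¹) ∧ w.2 < 2 ^ (k + 1) ∧
      (p j → V ≤ ‖P a (Ioc 0 w.2) w.1‖) := by
    intro j
    by_cases h : p j
    · rw [hp] at h
      obtain ⟨z, hz, R, hR, hVz⟩ := h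
      exact ⟨(z, R), hz, hR, fun _ => hVz⟩
    · refine ⟨(u + j * (2 ^ k : ℝ)⁻¹, 0), ⟨le_rfl, ?_⟩, by positivity, fun h' => absurd h' h⟩
      have : (0:ℝ) < (2 ^ k : ℝ)⁻¹ := by positivity
      simp only
      nlinarith
  choose w hw using hex
  have h1 := points ha k u J L hL (fun j => (w j).1) (fun j => (w j).2) (fun j _ => (hw j).1) (fun j _ => (hw j).2.1)
  have h2 : (((range J).filter p).card : ℝ) * V ^ 2 ≤ ∑ j ∈ range J, ‖P a (Ioc 0 (w j).2) (w j).1‖ ^ 2 := by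
    calc (((range J).filter p).card : ℝ) * V ^ 2 = ∑ _j ∈ (range J).filter p, V ^ 2 := by
          rw [sum_const, nsmul_eq_mul]
      _ ≤ ∑ j ∈ (range J).filter p, ‖P a (Ioc 0 (w j).2) (w j).1‖ ^ 2 := by
          refine sum_le_sum fun j hj => ?_
          have := (hw j).2.2 (mem_filter.1 hj).2
          exact pow_le_pow_left₀ hV.le this 2
      _ ≤ _ := sum_le_sum_of_subset_of_nonneg (filter_subset _ _) fun _ _ _ => by positivity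
  subst hp
  rw [le_div_iff₀ (by positivity)]
  exact h2.trans h1

end Pool.Agent.Run7.h290.FT
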